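import Pool.Agent.K1H53.BI.Plan5
import Pool.Agent.K1H38.BI.Two

/-!
Project BI (helper53), piece LAPL: the Laplace transform of the offspring law.
-/

set_option autoImplicit false

open scoped ENNReal

namespace Pool.Agent.K1H99.BI5

open Pool.Agent.K1H53.BI

theorem exp_le (t : ℝ) : Real.exp t ≤ 1 + t + t ^ 2 * Real.exp |t| := by
  have h := Complex.norm_exp_sub_sum_le_norm_mul_exp (t : ℂ) 2
  have e : Complex.exp (t : ℂ) - ∑ m ∈ Finset.range 2, (t : ℂ) ^ m / (m.factorial : ℂ) =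
      ((Real.exp t - (1 + t) : ℝ) : ℂ) := by
    rw [Finset.sum_range_succ, Finset.sum_range_one]
    push_cast
    norm_num
  rw [e, Complex.norm_real, Complex.norm_real, Real.norm_eq_abs, Real.norm_eq_abs, sq_abs] at h
  have := le_abs_self (Real.exp t - (1 + t))
  linarith

theorem sq_le {x : ℝ} (hx : 0 ≤ x) : x ^ 2 ≤ 2 * Real.exp x := by
  have := Real.quadratic_le_exp_of_nonneg hx
  nlinarith

theorem t_LAPL : S_LAPL := by
  intro ν hν
  obtain ⟨lam, hlam, hs⟩ := hν.expo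
  set S := ∑' k : ℕ, (ν k).toReal * Real.exp (lam * k) with hS
  have hS0 : 0 ≤ S := tsum_nonneg fun k => by positivity
  refine ⟨lam / 2, 8 / lam ^ 2 * (S + 1), by positivity, by positivity, fun u hu => ?_⟩
  have hk : ∀ k : ℕ, Real.exp (u * k) ≤ 1 + u * k + u ^ 2 * (8 / lam ^ 2 * Real.exp (lam * k)) := by
    intro k
    have h1 := exp_le (u * k)
    have hk0 : (0 : ℝ) ≤ k := Nat.cast_nonneg k
    have h2 : |u * k| ≤ lam * k / 2 := by
      rw [abs_mul, abs_of_nonneg hk0]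
      nlinarith
    have h3 : Real.exp |u * k| ≤ Real.exp (lam * k / 2) := Real.exp_le_exp.2 h2
    have h4 : (lam * k / 2) ^ 2 ≤ 2 * Real.exp (lam * k / 2) := sq_le (by positivity)
    have h5 : (k : ℝ) ^ 2 ≤ 8 / lam ^ 2 * Real.exp (lam * k / 2) := by
      rw [div_mul_eq_mul_div, le_div_iff₀ (by positivity)]
      nlinarith
    have h6 : Real.exp (lam * k / 2) * Real.exp (lam * k / 2) = Real.exp (lam * k) := by
      rw [← Real.exp_add]
      congr 1
      ring
    have h7 : (u * k) ^ 2 * Real.exp |u * k| ≤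
        u ^ 2 * (8 / lam ^ 2 * Real.exp (lam * k)) := by
      calc (u * k) ^ 2 * Real.exp |u * k| ≤ (u * k) ^ 2 * Real.exp (lam * k / 2) :=
            mul_le_mul_of_nonneg_left h3 (sq_nonneg _)
        _ = u ^ 2 * (k ^ 2 * Real.exp (lam * k / 2)) := by ring
        _ ≤ u ^ 2 * (8 / lam ^ 2 * Real.exp (lam * k / 2) * Real.exp (lam * k / 2)) :=
            mul_le_mul_of_nonneg_left (mul_le_mul_of_nonneg_right h5 (Real.exp_pos _).le)
              (sq_nonneg _)
        _ = u ^ 2 * (8 / lam ^ 2 * Real.exp (lam * k)) := by rw [mul_assoc, h6]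
    linarith
  have hnn : ∀ k : ℕ, 0 ≤ 1 + u * k + u ^ 2 * (8 / lam ^ 2 * Real.exp (lam * k)) := fun k =>
    (Real.exp_pos _).le.trans (hk k)
  have hsum : HasSum (fun k : ℕ => (ν k).toReal *
      (1 + u * k + u ^ 2 * (8 / lam ^ 2 * Real.exp (lam * k))))
      (1 + u * 1 + u ^ 2 * (8 / lam ^ 2) * S) := by
    have h1 := Pool.Agent.K1H38.BI.hasSum_one ν
    have h2 := hν.mean.mul_left u
    have h3 := hs.hasSum.mul_left (u ^ 2 * (8 / lam ^ 2))
    have h4 := (h1.add h2).add h3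
    refine h4.congr_fun ?_
    intro k
    ring
  calc Ex ν (fun k => ENNReal.ofReal (Real.exp (u * k)))
      ≤ Ex ν (fun k : ℕ => ENNReal.ofReal
          (1 + u * k + u ^ 2 * (8 / lam ^ 2 * Real.exp (lam * k)))) :=
        Ex_mono ν fun k _ => ENNReal.ofReal_le_ofReal (hk k)
    _ = ENNReal.ofReal (1 + u * 1 + u ^ 2 * (8 / lam ^ 2) * S) :=
        Pool.Agent.K1H38.BI.Ex_ofReal ν _ hnn _ hsum
    _ ≤ ENNReal.ofReal (1 + u + 8 / lam ^ 2 * (S + 1) * u ^ 2) := by
        refine ENNReal.ofReal_le_ofReal ?_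
        have : 0 ≤ 8 / lam ^ 2 * u ^ 2 := by positivity
        nlinarith

end Pool.Agent.K1H99.BI5
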